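import Pool.Agent.LE.StmtsH

/-!
# Squad LCH, row WTS: the span of eigenfunctions with energies outside of a closed set
-/

set_option autoImplicit false

open MeasureTheory ProbabilityTheory Function Filter

open scoped ENNReal BigOperators InnerProductSpace Topology

noncomputable section

namespace Pool.Agent.LE.CH.H76

open Pool.Agent.Anderson Pool.Agent.Loc Pool.Agent.Mob Pool.Agent.Helper54.Bal

/-- WTS -/
theorem wts (hA : WtaStmt) (hE : WteStmt) (hL : WtlStmt) : WtsStmt := by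
  intro d V B u hB hu
  have hzero : Tendsto (fun η : ℝ => wt V B η (0 : L2 d)) (𝓝[>] 0) (𝓝 0) := by
    have h1 : ∀ᶠ η : ℝ in 𝓝[>] 0, wt V B η (0 : L2 d) = 0 := by
      filter_upwards [self_mem_nhdsWithin] with η hη
      have h2 := (hA d V B η hη).2.1 0 (0 : L2 d)
      rw [zero_smul] at h2
      rw [h2]
      simp
    exact (tendsto_congr' h1).2 tendsto_const_nhds
  have hspan : ∀ v ∈ Submodule.span ℂ {φ : L2 d | ∃ E₀ : ℝ, E₀ ∉ B ∧ IsEigen V E₀ φ},
      Tendsto (fun η : ℝ => wt V B η v) (𝓝[>] 0) (𝓝 0) := by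
    intro v hv
    induction hv using Submodule.span_induction with
    | mem φ hφ =>
      obtain ⟨E₀, hE₀, hei⟩ := hφ
      obtain ⟨s, hs, hsB⟩ : ∃ s : ℝ, 0 < s ∧ ∀ E ∈ B, s ≤ |E - E₀| := by
        have h1 : Bᶜ ∈ 𝓝 E₀ := hB.isOpen_compl.mem_nhds hE₀
        obtain ⟨s, hs, hsub⟩ := Metric.mem_nhds_iff.1 h1
        refine ⟨s, hs, fun E hEB => ?_⟩
        by_contra hlt
        push Not at hlt
        have h2 : E ∈ Metric.ball E₀ s := by
          rw [Metric.mem_ball, Real.dist_eq]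
          exact hlt
        exact hsub h2 hEB
      have h3 : Tendsto (fun η : ℝ => ENNReal.ofReal (η / s * ‖φ‖ ^ 2)) (𝓝[>] 0) (𝓝 0) := by
        have h4 : Tendsto (fun η : ℝ => η / s * ‖φ‖ ^ 2) (𝓝 0) (𝓝 (0 / s * ‖φ‖ ^ 2)) :=
          (Continuous.tendsto (by fun_prop) 0)
        have h5 := (ENNReal.tendsto_ofReal h4).mono_left
          (nhdsWithin_le_nhds (s := Set.Ioi (0 : ℝ)))
        rw [zero_div, zero_mul, ENNReal.ofReal_zero] at h5
        exact h5
      refine tendsto_of_tendsto_of_tendsto_of_le_of_le' tendsto_const_nhds h3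
        (Eventually.of_forall fun _ => zero_le) ?_
      filter_upwards [self_mem_nhdsWithin] with η hη
      exact (hE d V B η s E₀ φ hη hs hei).1 hsB
    | zero => exact hzero
    | add x y _ _ hx hy =>
      have h3 : Tendsto (fun η : ℝ => 2 * wt V B η x + 2 * wt V B η y) (𝓝[>] 0) (𝓝 0) := by
        have h4 := (ENNReal.Tendsto.const_mul (a := 2) hx (Or.inr (by norm_num))).add
          (ENNReal.Tendsto.const_mul (a := 2) hy (Or.inr (by norm_num)))
        simpa using h4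
      refine tendsto_of_tendsto_of_tendsto_of_le_of_le' tendsto_const_nhds h3
        (Eventually.of_forall fun _ => zero_le) ?_
      filter_upwards [self_mem_nhdsWithin] with η hη
      exact (hA d V B η hη).1 x y
    | smul c x _ hx =>
      have h3 : Tendsto (fun η : ℝ => ENNReal.ofReal (‖c‖ ^ 2) * wt V B η x) (𝓝[>] 0) (𝓝 0) := by
        have h4 := ENNReal.Tendsto.const_mul (a := ENNReal.ofReal (‖c‖ ^ 2)) hx
          (Or.inr ENNReal.ofReal_ne_top)
        simpa using h4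
      refine (tendsto_congr' ?_).2 h3
      filter_upwards [self_mem_nhdsWithin] with η hη
      exact (hA d V B η hη).2.1 c x
  rw [ENNReal.tendsto_nhds_zero]
  intro ε hε
  obtain ⟨δ, hδ, hδε⟩ : ∃ δ : ℝ, 0 < δ ∧ 2 * ENNReal.ofReal (δ ^ 2) ≤ ε / 2 := by
    rcases eq_or_ne ε ⊤ with rfl | hεt
    · refine ⟨1, one_pos, ?_⟩
      rw [ENNReal.top_div_of_ne_top (by norm_num)]
      exact le_top
    · have h1 : Tendsto (fun δ : ℝ => 2 * ENNReal.ofReal (δ ^ 2)) (𝓝[>] 0) (𝓝 0) := by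
        have h4 : Tendsto (fun δ : ℝ => δ ^ 2) (𝓝 0) (𝓝 ((0 : ℝ) ^ 2)) :=
          (Continuous.tendsto (by fun_prop) 0)
        have h5 := (ENNReal.tendsto_ofReal h4).mono_left
          (nhdsWithin_le_nhds (s := Set.Ioi (0 : ℝ)))
        have h6 := ENNReal.Tendsto.const_mul (a := 2) h5 (Or.inr (by norm_num))
        simpa using h6
      have h2 := (ENNReal.tendsto_nhds_zero.1 h1) (ε / 2) (ENNReal.half_pos hε.ne')
      obtain ⟨δ, h3, h4⟩ := (h2.and self_mem_nhdsWithin).exists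
      exact ⟨δ, h4, h3⟩
  obtain ⟨v, hv, hdist⟩ := Metric.mem_closure_iff.1 hu δ hδ
  have hv2 : ∀ᶠ η : ℝ in 𝓝[>] 0, wt V B η v ≤ ε / 2 / 2 :=
    (ENNReal.tendsto_nhds_zero.1 (hspan v hv)) (ε / 2 / 2)
      (ENNReal.half_pos (ENNReal.half_pos hε.ne').ne')
  filter_upwards [hv2, self_mem_nhdsWithin] with η h1 hη
  have h2 : wt V B η u ≤ 2 * wt V B η v + 2 * wt V B η (u - v) := by
    have h3 := (hA d V B η hη).1 v (u - v)
    rwa [add_sub_cancel] at h3
  have h4 : wt V B η (u - v) ≤ ENNReal.ofReal (δ ^ 2) := by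
    refine (hL d V B η (u - v) hη).trans (ENNReal.ofReal_le_ofReal ?_)
    have h5 : ‖u - v‖ < δ := by rwa [dist_eq_norm] at hdist
    have h6 := norm_nonneg (u - v)
    nlinarith
  calc wt V B η u ≤ 2 * wt V B η v + 2 * wt V B η (u - v) := h2
    _ ≤ 2 * (ε / 2 / 2) + 2 * ENNReal.ofReal (δ ^ 2) := by gcongr
    _ ≤ ε / 2 + ε / 2 := by
        refine add_le_add (le_of_eq ?_) hδε
        exact ENNReal.mul_div_cancel (by norm_num) (by norm_num)
    _ = ε := ENNReal.add_halves ε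

end Pool.Agent.LE.CH.H76
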